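import Mathlib
import Pool.Agent.Helper91.DoubK

/-!
# A uniformly bounded complete double orthonormal system of a.e. (regular) convergence

We prove that there is a double orthonormal system `φ i k` (`i, k = 0, 1, 2, …`) on the unit
square which is uniformly bounded (by `3`), complete in `L²`, and such that for *every* square
summable array of coefficients the double series `∑ a i k * φ i k` converges regularly (hence
also in Pringsheim's sense) almost everywhere.

The construction is elementary (no Carleson type theorem is used).  Start with the Haar type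
orthonormal basis of `L²` consisting of the Rademacher functions `r n` and of the
functions `e k` (the constant `1`, and, for each dyadic generation, the Haar functions of this
generation corrected by a Householder reflection so as to become orthogonal to `r n`); the
`e k` are bounded by `2 ^ k` and satisfy an `L²` maximal inequality.  Relabel the Rademacher
functions as `f i k = r (pair i k)` and put `F k = 2 ^ (-k) * ∑ i < 4 ^ k, f i k`.  The functions
`B k` (`B (2 ^ n) = F n`, and `B k = e k` if `k` is not a power of two) are flattened by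
`φ i k = f i k - 2 ^ (-k) * (B k + F k)` for `i < 4 ^ k`, and `φ i k = f i k` for `i ≥ 4 ^ k`.
-/

set_option autoImplicit false

open MeasureTheory Filter
open scoped Topology ENNReal

namespace Pool.Agent.Results.MP_aa1cf3_an.BoundedCompleteSystem

/-- Lebesgue measure on the closed unit square `[0,1] × [0,1]`. -/
noncomputable def squareMeasure : Measure (ℝ × ℝ) :=
  (volume : Measure (ℝ × ℝ)).restrict (Set.Icc (0:ℝ) 1 ×ˢ Set.Icc (0:ℝ) 1)

/-- `φ` is a double orthonormal system on the unit square: a family in `L²`, indexed by pairs of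
natural numbers, with `∫ φ i k * φ j l = 1` if `(i, k) = (j, l)` and `0` otherwise. -/
structure IsDoubleOrthonormal (φ : ℕ → ℕ → ℝ × ℝ → ℝ) : Prop where
  memLp : ∀ i k, MemLp (φ i k) 2 squareMeasure
  inner : ∀ i k j l, ∫ p, φ i k p * φ j l p ∂squareMeasure = if i = j ∧ k = l then 1 else 0

/-- Completeness in `L²` of the unit square: only the zero function is orthogonal to the system. -/
def IsCompleteSystem (φ : ℕ → ℕ → ℝ × ℝ → ℝ) : Prop :=
  ∀ g : ℝ × ℝ → ℝ, MemLp g 2 squareMeasure →
    (∀ i k, ∫ p, g p * φ i k p ∂squareMeasure = 0) → g =ᵐ[squareMeasure] 0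

/-- The rectangular partial sum, the sum of `u i k` over `i < m`, `k < n`. -/
def rectSum (u : ℕ → ℕ → ℝ) (m n : ℕ) : ℝ :=
  ∑ i ∈ Finset.range m, ∑ k ∈ Finset.range n, u i k

/-- Convergence in Pringsheim's sense: the rectangular partial sums have a finite limit as
`min m n → ∞`. -/
def PringsheimConverges (u : ℕ → ℕ → ℝ) : Prop :=
  ∃ s : ℝ, ∀ ε > 0, ∃ N : ℕ, ∀ m n : ℕ, N ≤ min m n → |rectSum u m n - s| < ε

/-- Regular convergence: convergence in Pringsheim's sense, and moreover each row series and each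
column series converges. -/
def RegularlyConverges (u : ℕ → ℕ → ℝ) : Prop :=
  PringsheimConverges u ∧
    (∀ i, ∃ s, Tendsto (fun n => ∑ k ∈ Finset.range n, u i k) atTop (𝓝 s)) ∧
    (∀ k, ∃ s, Tendsto (fun m => ∑ i ∈ Finset.range m, u i k) atTop (𝓝 s))

theorem row_of_pringsheim (a : ℕ → ℕ → ℝ) (v : ℕ → ℕ → ℝ) (i : ℕ)
    (h : ∃ s, Tendsto (fun q : ℕ × ℕ => ∑ i' ∈ Finset.range q.1, ∑ k ∈ Finset.range q.2,
      (if i' = i then a i' k else 0) * v i' k) atTop (𝓝 s)) :
    ∃ s, Tendsto (fun n => ∑ k ∈ Finset.range n, a i k * v i k) atTop (𝓝 s) := by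
  obtain ⟨s, hs⟩ := h
  refine ⟨s, ?_⟩
  have ht : Tendsto (fun n : ℕ => ((n + (i + 1), n) : ℕ × ℕ)) atTop atTop := by
    rw [← prod_atTop_atTop_eq]
    exact (tendsto_add_atTop_nat (i+1)).prodMk tendsto_id
  refine (hs.comp ht).congr fun n => ?_
  simp only [Function.comp]
  rw [Finset.sum_eq_single i]
  · simp
  · intro b _ hb; simp [hb]
  · intro hi; exact absurd (Finset.mem_range.2 (by omega)) hi

theorem col_of_pringsheim (a : ℕ → ℕ → ℝ) (v : ℕ → ℕ → ℝ) (k : ℕ)
    (h : ∃ s, Tendsto (fun q : ℕ × ℕ => ∑ i ∈ Finset.range q.1, ∑ k' ∈ Finset.range q.2,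
      (if k' = k then a i k' else 0) * v i k') atTop (𝓝 s)) :
    ∃ s, Tendsto (fun m => ∑ i ∈ Finset.range m, a i k * v i k) atTop (𝓝 s) := by
  obtain ⟨s, hs⟩ := h
  refine ⟨s, ?_⟩
  have ht : Tendsto (fun m : ℕ => ((m, m + (k + 1)) : ℕ × ℕ)) atTop atTop := by
    rw [← prod_atTop_atTop_eq]
    exact tendsto_id.prodMk (tendsto_add_atTop_nat (k+1))
  refine (hs.comp ht).congr fun m => ?_
  simp only [Function.comp]
  refine Finset.sum_congr rfl fun i _ => ?_
  rw [Finset.sum_eq_single k]
  · simp
  · intro b _ hb; simp [hb]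
  · intro hi; exact absurd (Finset.mem_range.2 (by omega)) hi

/-- **Affirmative answer.** There is a double orthonormal system on the unit square which is
uniformly bounded, complete in `L²`, and whose series converge regularly almost everywhere for
every square summable array of coefficients. -/
theorem result : ∃ φ : ℕ → ℕ → ℝ × ℝ → ℝ,
    IsDoubleOrthonormal φ ∧
    (∀ i k p, |φ i k p| ≤ 3) ∧
    IsCompleteSystem φ ∧
    ∀ a : ℕ → ℕ → ℝ, Summable (fun q : ℕ × ℕ => a q.1 q.2 ^ 2) →
      ∀ᵐ p ∂squareMeasure, RegularlyConverges (fun i k => a i k * φ i k p) := by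
  obtain ⟨φ, h1, h2, h3, h4, h5⟩ := Pool.Agent.Helper91.DoubleONS.main
  have hsq : (volume : Measure (ℝ × ℝ)).restrict (Set.Icc (0:ℝ) 1 ×ˢ Set.Icc (0:ℝ) 1)
      = squareMeasure := rfl
  rw [hsq] at h4 h5
  simp only [hsq] at h1 h3
  refine ⟨φ, ⟨h1, h3⟩, h2, h4, ?_⟩
  intro a ha
  have hrow : ∀ i, Summable (fun q : ℕ × ℕ => (if q.1 = i then a q.1 q.2 else 0) ^ 2) := by
    intro i
    refine Summable.of_nonneg_of_le (fun q => sq_nonneg _) (fun q => ?_) ha
    split_ifs
    · exact le_rfl
    · simp only [ne_eq, OfNat.ofNat_ne_zero, not_false_eq_true, zero_pow]; exact sq_nonneg _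
  have hcol : ∀ k, Summable (fun q : ℕ × ℕ => (if q.2 = k then a q.1 q.2 else 0) ^ 2) := by
    intro k
    refine Summable.of_nonneg_of_le (fun q => sq_nonneg _) (fun q => ?_) ha
    split_ifs
    · exact le_rfl
    · simp only [ne_eq, OfNat.ofNat_ne_zero, not_false_eq_true, zero_pow]; exact sq_nonneg _
  have c1 := h5 a ha
  have c2 : ∀ᵐ p ∂squareMeasure, ∀ i, ∃ s, Tendsto (fun q : ℕ × ℕ =>
      ∑ i' ∈ Finset.range q.1, ∑ k ∈ Finset.range q.2,
        (if i' = i then a i' k else 0) * φ i' k p) atTop (𝓝 s) :=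
    ae_all_iff.2 fun i => h5 (fun i' k => if i' = i then a i' k else 0) (hrow i)
  have c3 : ∀ᵐ p ∂squareMeasure, ∀ k, ∃ s, Tendsto (fun q : ℕ × ℕ =>
      ∑ i ∈ Finset.range q.1, ∑ k' ∈ Finset.range q.2,
        (if k' = k then a i k' else 0) * φ i k' p) atTop (𝓝 s) :=
    ae_all_iff.2 fun k => h5 (fun i k' => if k' = k then a i k' else 0) (hcol k)
  filter_upwards [c1, c2, c3] with p p1 p2 p3
  refine ⟨?_, fun i => row_of_pringsheim a (fun i k => φ i k p) i (p2 i),
    fun k => col_of_pringsheim a (fun i k => φ i k p) k (p3 k)⟩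
  obtain ⟨s, hs⟩ := p1
  refine ⟨s, fun ε hε => ?_⟩
  obtain ⟨N, hN⟩ := (Metric.tendsto_atTop.1 hs) ε hε
  refine ⟨max N.1 N.2, fun m n hmn => ?_⟩
  have hle : N ≤ (m, n) := by
    constructor
    · exact (le_max_left _ _).trans (hmn.trans (min_le_left _ _))
    · exact (le_max_right _ _).trans (hmn.trans (min_le_right _ _))
  have := hN (m, n) hle
  rw [Real.dist_eq] at this
  exact this

end Pool.Agent.Results.MP_aa1cf3_an.BoundedCompleteSystem
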